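import Pool.Agent.Lib.MP_b03ab8_lc.CDefs

/-!
# Module C.Chain: the lower bound along the trajectory

PROOF. Let `t` be a schedule. For `n ≥ 1` and `l < L`:
`t (t0 (σ n)) n + l ≤ t (some (l, run n l (σ n))) n` by induction on `l` (the reading arc of
layer `l` with `r = n % g l`, instance `k = n / g l + 1`: `α k + h = g (n / g + 1) + r - g = n`,
the indices are `≥ 1`).
From the last layer `l = L - 1` (`s' = δ l (run n l (σ n)) (n % g l) = F (σ n) n`):
* `bon s' = false`: `t (t0 (σ n)) n + L ≤ t (t0 (σ (n + 1))) (n + 1)`;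
* `bon s' = true`: via `none`: `t (t0 (σ n)) n + L ≤ t none n` and
  `t none n + 1 ≤ t (t0 s0) (n + 1)`, `σ (n + 1) = s0`:
  `t (t0 (σ n)) n + L + 1 ≤ t (t0 (σ (n + 1))) (n + 1)`.
PERIODICITY: `σ (k + M) = σ k`; for `k = 0` this is `ret`; step: `run`, `F` at time `k` depend
only on the residues `k % g l`, `l < L`, and `g l ∣ M`. So `σ (M k) = s0` and for
`n = M k + M - 1` the state `F (σ n) n` is a bonus state iff `b`.
Hence, for `k ≥ 1`, going from `n = M k` to `M (k + 1)`: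
`t (t0 s0) (M k) + (L M + b) ≤ t (t0 s0) (M (k + 1))`; induction on `k`, start
`0 ≤ t (t0 s0) M`.
-/

open Finset

namespace Pool.Agent.LinSched

variable {S : Type} [Fintype S]

private theorem ch_rd_mem (A : CA S) (l : Fin A.L) (s : S) {r : ℕ} (hr : r < A.g l) :
    A.rd l s r ∈ A.arcs := by
  unfold CA.arcs
  exact List.mem_append_right _ (List.mem_flatMap.2 ⟨(l, s),
    Finset.mem_toList.2 (Finset.mem_univ _), List.mem_map.2 ⟨r, List.mem_range.2 hr, rfl⟩⟩)

private theorem ch_none_mem (A : CA S) :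
    (⟨none, A.t0 A.s0, 1, 1, 1, 0⟩ : Arc A.Task) ∈ A.arcs := by
  unfold CA.arcs
  exact List.mem_append_left _ (List.mem_append_right _ (List.mem_singleton.2 rfl))

omit [Fintype S] in
private theorem ch_eq (g n : ℕ) :
    (n : ℤ) = (g : ℤ) * (((n / g : ℕ) : ℤ) + 1) + (((n % g : ℕ) : ℤ) - g) := by
  have h2 : (g : ℤ) * (n / g : ℕ) + (n % g : ℕ) = n := by exact_mod_cast Nat.div_add_mod n g
  linarith

omit [Fintype S] in
private theorem ch_eq1 (g n : ℕ) :
    ((n + 1 : ℕ) : ℤ) = (g : ℤ) * (((n / g : ℕ) : ℤ) + 1) + (((n % g : ℕ) : ℤ) - g + 1) := by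
  have h := ch_eq g n
  push_cast
  push_cast at h
  linarith

private theorem ch_step1 (A : CA S) {t : A.Task → ℕ → ℝ} (ht : A.graph.IsSchedule t) {l : ℕ}
    (hl : l + 1 < A.L) (s : S) {n : ℕ} (hn : 1 ≤ n) :
    t (some (⟨l, by omega⟩, s)) n + 1 ≤ t (some (⟨l + 1, hl⟩, A.δ l s (n % A.g l))) n := by
  have hmem := ch_rd_mem A ⟨l, by omega⟩ s (Nat.mod_lt n (A.gpos l))
  have h1 := ht.2 _ hmem (((n / A.g l : ℕ) : ℤ) + 1) (by positivity) n n hn hn
  unfold CA.rd at h1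
  rw [dif_pos (show ((⟨l, by omega⟩ : Fin A.L) : ℕ) + 1 < A.L from hl)] at h1
  have h2 := h1 (ch_eq (A.g l) n) (ch_eq (A.g l) n)
  have h3 : ((A.graph.p (some (⟨l, by omega⟩, s)) : ℕ) : ℝ) = 1 := Nat.cast_one
  rw [← h3]
  exact h2

private theorem ch_step2 (A : CA S) {t : A.Task → ℕ → ℝ} (ht : A.graph.IsSchedule t) {l : ℕ}
    (hl : l + 1 = A.L) (s : S) {n : ℕ} (hn : 1 ≤ n) (hb : A.bon (A.δ l s (n % A.g l)) = true) :
    t (some (⟨l, by omega⟩, s)) n + 2 ≤ t (A.t0 A.s0) (n + 1) := by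
  have hmem := ch_rd_mem A ⟨l, by omega⟩ s (Nat.mod_lt n (A.gpos l))
  have h1 := ht.2 _ hmem (((n / A.g l : ℕ) : ℤ) + 1) (by positivity) n n hn hn
  unfold CA.rd at h1
  rw [dif_neg (show ¬ ((⟨l, by omega⟩ : Fin A.L) : ℕ) + 1 < A.L from fun h => by
    change l + 1 < A.L at h
    omega), if_pos hb] at h1
  have h2 := h1 (ch_eq (A.g l) n) (ch_eq (A.g l) n)
  have h3 : ((A.graph.p (some (⟨l, by omega⟩, s)) : ℕ) : ℝ) = 1 := Nat.cast_one
  have h4 := ht.2 _ (ch_none_mem A) (n : ℤ) (by exact_mod_cast hn) n (n + 1) hn (by omega)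
    (by simp) (by simp)
  have h5 : ((A.graph.p none : ℕ) : ℝ) = 1 := Nat.cast_one
  have h6 : t (some (⟨l, by omega⟩, s)) n + 1 ≤ t none n := by
    rw [← h3]
    exact h2
  have h7 : t none n + 1 ≤ t (A.t0 A.s0) (n + 1) := by
    rw [← h5]
    exact h4
  linarith

private theorem ch_step3 (A : CA S) {t : A.Task → ℕ → ℝ} (ht : A.graph.IsSchedule t) {l : ℕ}
    (hl : l + 1 = A.L) (s : S) {n : ℕ} (hn : 1 ≤ n)
    (hb : ¬ A.bon (A.δ l s (n % A.g l)) = true) :
    t (some (⟨l, by omega⟩, s)) n + 1 ≤ t (A.t0 (A.δ l s (n % A.g l))) (n + 1) := by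
  have hmem := ch_rd_mem A ⟨l, by omega⟩ s (Nat.mod_lt n (A.gpos l))
  have h1 := ht.2 _ hmem (((n / A.g l : ℕ) : ℤ) + 1) (by positivity) n (n + 1) hn (by omega)
  unfold CA.rd at h1
  rw [dif_neg (show ¬ ((⟨l, by omega⟩ : Fin A.L) : ℕ) + 1 < A.L from fun h => by
    change l + 1 < A.L at h
    omega), if_neg hb] at h1
  have h2 := h1 (ch_eq (A.g l) n) (ch_eq1 (A.g l) n)
  have h3 : ((A.graph.p (some (⟨l, by omega⟩, s)) : ℕ) : ℝ) = 1 := Nat.cast_one
  rw [← h3]
  exact h2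

private theorem ch_layers (A : CA S) {t : A.Task → ℕ → ℝ} (ht : A.graph.IsSchedule t) (s : S)
    {n : ℕ} (hn : 1 ≤ n) : ∀ (l : ℕ) (hl : l < A.L),
    t (A.t0 s) n + l ≤ t (some (⟨l, hl⟩, A.run n l s)) n
  | 0, hl => by
    rw [Nat.cast_zero, add_zero]
    exact le_rfl
  | l + 1, hl => by
    have h1 := ch_layers A ht s hn l (by omega)
    have h2 := ch_step1 A ht hl (A.run n l s) hn
    have h3 : t (some (⟨l + 1, hl⟩, A.run n (l + 1) s)) n =
        t (some (⟨l + 1, hl⟩, A.δ l (A.run n l s) (n % A.g l))) n := rfl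
    rw [h3]
    push_cast
    linarith

private theorem ch_one (A : CA S) {t : A.Task → ℕ → ℝ} (ht : A.graph.IsSchedule t)
    {n : ℕ} (hn : 1 ≤ n) :
    t (A.t0 (A.σ n)) n + (A.L + ((A.bon (A.F (A.σ n) n)).toNat : ℕ)) ≤
      t (A.t0 (A.σ (n + 1))) (n + 1) := by
  obtain ⟨l, hl⟩ : ∃ l, l + 1 = A.L := ⟨A.L - 1, by have := A.Lpos; omega⟩
  have h1 := ch_layers A ht (A.σ n) hn l (by omega)
  have hF : A.F (A.σ n) n = A.δ l (A.run n l (A.σ n)) (n % A.g l) := by
    unfold CA.F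
    rw [← hl]
    rfl
  have hL : (A.L : ℝ) = l + 1 := by
    rw [← hl]
    push_cast
    rfl
  have hσ : A.σ (n + 1) = if A.bon (A.F (A.σ n) n) then A.s0 else A.F (A.σ n) n := rfl
  rw [hσ]
  by_cases hb : A.bon (A.F (A.σ n) n) = true
  · rw [if_pos hb, hb]
    have hb' := hb
    rw [hF] at hb'
    have h2 := ch_step2 A ht hl (A.run n l (A.σ n)) hn hb'
    have h3 : ((Bool.toNat true : ℕ) : ℝ) = 1 := by simp
    rw [h3, hL]
    linarith
  · rw [if_neg hb]
    have hb2 : A.bon (A.F (A.σ n) n) = false := by simpa using hb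
    rw [hb2]
    have hb' := hb
    rw [hF] at hb'
    have h2 := ch_step3 A ht hl (A.run n l (A.σ n)) hn hb'
    have h3 : ((Bool.toNat false : ℕ) : ℝ) = 0 := by simp
    rw [h3, hL, hF]
    linarith

private theorem ch_many (A : CA S) {t : A.Task → ℕ → ℝ} (ht : A.graph.IsSchedule t)
    {n : ℕ} (hn : 1 ≤ n) : ∀ m : ℕ,
    t (A.t0 (A.σ n)) n + A.L * m ≤ t (A.t0 (A.σ (n + m))) (n + m)
  | 0 => by simp
  | m + 1 => by
    have h1 := ch_many A ht hn m
    have h2 := ch_one A ht (n := n + m) (by omega)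
    have h3 : (0 : ℝ) ≤ ((A.bon (A.F (A.σ (n + m)) (n + m))).toNat : ℕ) := Nat.cast_nonneg _
    rw [← add_assoc]
    push_cast
    linarith

omit [Fintype S] in
private theorem ch_run (A : CA S) {M : ℕ} {b : Bool} (h : A.Good M b) (k : ℕ) (s : S) :
    ∀ l, l ≤ A.L → A.run (k + M) l s = A.run k l s
  | 0, _ => rfl
  | l + 1, hl => by
    have h1 := ch_run A h k s l (by omega)
    show A.δ l (A.run (k + M) l s) ((k + M) % A.g l) = A.δ l (A.run k l s) (k % A.g l)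
    obtain ⟨c, hc⟩ := h.gdvd l (by omega)
    rw [h1, hc, Nat.add_mul_mod_self_left]

omit [Fintype S] in
private theorem ch_F (A : CA S) {M : ℕ} {b : Bool} (h : A.Good M b) (k : ℕ) (s : S) :
    A.F s (k + M) = A.F s k := ch_run A h k s A.L le_rfl

omit [Fintype S] in
private theorem ch_sig (A : CA S) {M : ℕ} {b : Bool} (h : A.Good M b) :
    ∀ k, A.σ (k + M) = A.σ k
  | 0 => by
    rw [Nat.zero_add, h.ret]
    rfl
  | k + 1 => by
    have h1 := ch_sig A h k
    have h2 : A.σ (k + 1 + M) = if A.bon (A.F (A.σ (k + M)) (k + M)) then A.s0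
        else A.F (A.σ (k + M)) (k + M) := by
      rw [show k + 1 + M = (k + M) + 1 by omega]
      rfl
    rw [h2, h1, ch_F A h]
    rfl

omit [Fintype S] in
private theorem ch_sigM (A : CA S) {M : ℕ} {b : Bool} (h : A.Good M b) (i : ℕ) :
    ∀ k, A.σ (i + M * k) = A.σ i ∧ ∀ s, A.F s (i + M * k) = A.F s i
  | 0 => by simp
  | k + 1 => by
    obtain ⟨h1, h2⟩ := ch_sigM A h i k
    rw [show i + M * (k + 1) = (i + M * k) + M by ring]
    exact ⟨(ch_sig A h _).trans h1, fun s => (ch_F A h _ s).trans (h2 s)⟩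

theorem chain_low (A : CA S) (M : ℕ) (b : Bool) (h : A.Good M b)
    (t : A.Task → ℕ → ℝ) (ht : A.graph.IsSchedule t) (k : ℕ) :
    (k : ℝ) * (A.L * M + b.toNat : ℕ) ≤ t (A.t0 A.s0) (M * (k + 1)) := by
  have hM := h.Mpos
  induction k with
  | zero =>
    rw [Nat.cast_zero, zero_mul]
    exact ht.1 _ _ (Nat.mul_pos hM (by omega))
  | succ k ih =>
    have hn : 1 ≤ M * (k + 1) := Nat.mul_pos hM (by omega)
    have h0 : A.σ (M * (k + 1)) = A.s0 := by
      have := (ch_sigM A h 0 (k + 1)).1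
      rw [Nat.zero_add] at this
      exact this
    have h1 := ch_many A ht hn (M - 1)
    have h2 := ch_one A ht (n := M * (k + 1) + (M - 1)) (by omega)
    have h3 : M * (k + 1) + (M - 1) + 1 = M * (k + 1 + 1) := by
      have : M * (k + 1 + 1) = M * (k + 1) + M := by ring
      omega
    have h4 : A.σ (M * (k + 1 + 1)) = A.s0 := by
      have := (ch_sigM A h 0 (k + 1 + 1)).1
      rw [Nat.zero_add] at this
      exact this
    have h5 : A.bon (A.F (A.σ (M * (k + 1) + (M - 1))) (M * (k + 1) + (M - 1))) = b := by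
      rw [Nat.add_comm (M * (k + 1)) (M - 1)]
      obtain ⟨h6, h7⟩ := ch_sigM A h (M - 1) (k + 1)
      rw [h6, h7]
      exact h.bonus
    rw [h0] at h1
    rw [h5, h3, h4] at h2
    have h6 : (((M - 1 : ℕ)) : ℝ) = M - 1 := by
      rw [Nat.cast_sub hM, Nat.cast_one]
    rw [h6] at h1
    push_cast
    push_cast at ih h2
    linarith

end Pool.Agent.LinSched
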