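import Pool.Agent.Lib.MP_b03ab8_lc.C.Sched
import Pool.Agent.Lib.MP_b03ab8_lc.C.Chain
import Pool.Agent.Lib.MP_b03ab8_lc.A.Earliest

/-!
# Module C.Freq: all tasks of the graph of a clocked automaton have frequency `M / (L M + b)`

PROOF. Let `τ` be the earliest schedule (`exists_earliest`, the graph is consistent by
`sched_isSchedule`). Upper bound: `τ u n ≤ sched u n ≤ L n + L + 2 + b (n / M)
≤ (L + b / M) n + L + 2`. Lower bound, for `n ≥ 2 M + 3`: `τ u n ≥ τ (t0 s0) (n - 2)` (arc
`t0 s0 → u` with shift `2`), and with `k + 1 = (n - 2) / M` (division in `ℕ`), the loops give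
`τ (t0 s0) (n - 2) ≥ τ (t0 s0) (M (k + 1)) ≥ k (L M + b)` (`chain_low`), and
`k ≥ (n - 2) / M - 2`. So `τ u n / n → (L M + b) / M > 0`, and the inverses converge to
`M / (L M + b)`.

The other statements are immediate: `p = 1`, all arcs have `α = α'` (also the reading arcs),
the loops are arcs, and from `u` to `t0 s0` and from `t0 s0` to `u` there are arcs.
-/

open Filter Topology Finset

namespace Pool.Agent.LinSched

variable {S : Type} [Fintype S]

private theorem fr_loop (A : CA S) (u : A.Task) :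
    (⟨u, u, 1, 1, 1, 0⟩ : Arc A.Task) ∈ A.graph.arcs := by
  show _ ∈ A.arcs
  unfold CA.arcs
  simp only [List.mem_append, List.mem_map]
  exact Or.inl (Or.inl (Or.inl (Or.inl ⟨u, Finset.mem_toList.2 (Finset.mem_univ u), rfl⟩)))

private theorem fr_to (A : CA S) (u : A.Task) :
    (⟨u, A.t0 A.s0, 1, 1, 2, 0⟩ : Arc A.Task) ∈ A.graph.arcs := by
  show _ ∈ A.arcs
  unfold CA.arcs
  simp only [List.mem_append, List.mem_map]
  exact Or.inl (Or.inl (Or.inl (Or.inr ⟨u, Finset.mem_toList.2 (Finset.mem_univ u), rfl⟩)))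

private theorem fr_from (A : CA S) (u : A.Task) :
    (⟨A.t0 A.s0, u, 1, 1, 2, 0⟩ : Arc A.Task) ∈ A.graph.arcs := by
  show _ ∈ A.arcs
  unfold CA.arcs
  simp only [List.mem_append, List.mem_map]
  exact Or.inl (Or.inl (Or.inr ⟨u, Finset.mem_toList.2 (Finset.mem_univ u), rfl⟩))

private theorem fr_toNat_le (b : Bool) : b.toNat ≤ 1 := Bool.toNat_le b

private theorem fr_sched_le (A : CA S) (M : ℕ) (b : Bool) (u : A.Task) (n : ℕ) :
    A.sched M b u n ≤ A.L * n + (A.L + 2) + b.toNat * (n / M) := by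
  have hb := fr_toNat_le b
  rcases u with - | ⟨l, s⟩
  · unfold CA.sched
    simp only
    split_ifs <;> omega
  · unfold CA.sched
    simp only
    have hl := l.2
    split_ifs <;> omega

private theorem fr_mono (A : CA S) {t : A.Task → ℕ → ℝ} (ht : A.graph.IsSchedule t)
    (u : A.Task) {m n : ℕ} (hm : 1 ≤ m) (h : m ≤ n) : t u m ≤ t u n := by
  induction n, h using Nat.le_induction with
  | base => exact le_rfl
  | succ n hmn ih =>
    have h1 := ht.2 _ (fr_loop A u) n (by omega) n (n + 1) (by omega) (by omega) (by simp)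
      (by push_cast; ring)
    have h2 : (0 : ℝ) ≤ A.graph.p u := Nat.cast_nonneg _
    simp only at h1
    linarith

theorem graph_consistent (A : CA S) (M : ℕ) (b : Bool) (h : A.Good M b) :
    A.graph.Consistent :=
  ⟨_, sched_isSchedule A M b h⟩

theorem graph_hasFrequency (A : CA S) (M : ℕ) (b : Bool) (h : A.Good M b) (u : A.Task) :
    A.graph.HasFrequency u ((M : ℝ) / (A.L * M + b.toNat : ℕ)) := by
  obtain ⟨τ, hτ, -⟩ := exists_earliest A.graph (graph_consistent A M b h)
  obtain ⟨t, ht⟩ : ∃ t : A.Task → ℕ → ℝ, t = fun i k => (τ i k : ℝ) := ⟨_, rfl⟩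
  rw [← ht] at hτ
  refine ⟨t, hτ, ?_⟩
  have hM : (0 : ℝ) < M := by exact_mod_cast h.Mpos
  have hL : (0 : ℝ) < A.L := by exact_mod_cast A.Lpos
  have hb0 : (0 : ℝ) ≤ b.toNat := Nat.cast_nonneg _
  obtain ⟨P, hP⟩ : ∃ P : ℝ, P = (A.L * M + b.toNat : ℕ) := ⟨_, rfl⟩
  have hP' : P = A.L * M + b.toNat := by rw [hP]; push_cast; ring
  have hP0 : 0 < P := by rw [hP']; positivity
  -- upper bound
  have hup : ∀ n : ℕ, 1 ≤ n → t u n ≤ P / M * n + (A.L + 2) := by
    intro n hn
    have h1 := hτ.2 _ (sched_isSchedule A M b h) u n hn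
    have h2 : ((A.sched M b u n : ℕ) : ℝ) ≤
        ((A.L * n + (A.L + 2) + b.toNat * (n / M) : ℕ) : ℝ) := by
      exact_mod_cast fr_sched_le A M b u n
    have h3 : ((n / M : ℕ) : ℝ) ≤ (n : ℝ) / M := Nat.cast_div_le
    have h4 := mul_le_mul_of_nonneg_left h3 hb0
    have h5 : P / M * n = A.L * n + b.toNat * ((n : ℝ) / M) := by
      rw [hP']
      field_simp
    push_cast at h2
    rw [h5]
    linarith
  -- lower bound
  have hlow : ∀ n : ℕ, 2 * M + 3 ≤ n → P / M * n - (2 / M + 2) * P ≤ t u n := by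
    intro n hn
    have h1 := hτ.1.2 _ (fr_from A u) (n - 2 : ℕ) (by omega) (n - 2) n (by omega) (by omega)
      (by simp) (by push_cast [Nat.cast_sub (show 2 ≤ n by omega)]; ring)
    have h2 : (0 : ℝ) ≤ A.graph.p (A.t0 A.s0) := Nat.cast_nonneg _
    simp only at h1
    have hq : 2 ≤ (n - 2) / M := by
      rw [Nat.le_div_iff_mul_le h.Mpos]
      omega
    obtain ⟨k, hk⟩ : ∃ k, (n - 2) / M = k + 1 := ⟨(n - 2) / M - 1, by omega⟩
    have h3 := chain_low A M b h t hτ.1 k
    have h4 : M * (k + 1) ≤ n - 2 := by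
      rw [← hk]
      exact Nat.mul_div_le _ _
    have h5 := fr_mono A hτ.1 (A.t0 A.s0) (m := M * (k + 1)) (n := n - 2)
      (Nat.mul_pos h.Mpos (Nat.succ_pos k)) h4
    have h6 : n - 2 < M * (k + 1) + M := by
      have := Nat.lt_mul_div_succ (n - 2) h.Mpos
      rw [hk] at this
      calc n - 2 < M * (k + 1 + 1) := this
        _ = _ := by ring
    have h7 : ((n : ℝ) - 2) < M * (k + 1) + M := by
      have h8 : ((n - 2 : ℕ) : ℝ) < ((M * (k + 1) + M : ℕ) : ℝ) := by exact_mod_cast h6
      rw [Nat.cast_sub (by omega)] at h8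
      push_cast at h8
      linarith
    have h8 : (n : ℝ) / M - 2 / M - 2 ≤ k := by
      have h9 : ((n : ℝ) - 2) / M < k + 2 := by
        rw [div_lt_iff₀ hM]
        linarith
      have h10 : ((n : ℝ) - 2) / M = n / M - 2 / M := by ring
      rw [h10] at h9
      linarith
    have h9 := mul_le_mul_of_nonneg_right h8 hP0.le
    rw [← hP] at h3
    have h10 : P / M * n - (2 / M + 2) * P = ((n : ℝ) / M - 2 / M - 2) * P := by ring
    rw [h10]
    linarith
  have hc : 0 < P / M := div_pos hP0 hM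
  have hlim : Tendsto (fun n : ℕ => t u n / n) atTop (𝓝 (P / M)) := by
    have hl1 : Tendsto (fun n : ℕ => P / M - (2 / M + 2) * P / n) atTop (𝓝 (P / M - 0)) :=
      tendsto_const_nhds.sub (tendsto_const_div_atTop_nhds_zero_nat _)
    have hl2 : Tendsto (fun n : ℕ => P / M + (A.L + 2) / n) atTop (𝓝 (P / M + 0)) :=
      tendsto_const_nhds.add (tendsto_const_div_atTop_nhds_zero_nat _)
    rw [sub_zero] at hl1
    rw [add_zero] at hl2
    refine tendsto_of_tendsto_of_tendsto_of_le_of_le' hl1 hl2 ?_ ?_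
    · filter_upwards [eventually_ge_atTop (2 * M + 3)] with n hn
      have hn0 : (0 : ℝ) < n := by
        have : 0 < n := by omega
        exact_mod_cast this
      have h1 := hlow n hn
      rw [le_div_iff₀ hn0]
      have h2 : (P / M - (2 / M + 2) * P / n) * n = P / M * n - (2 / M + 2) * P := by
        field_simp
      rw [h2]
      exact h1
    · filter_upwards [eventually_ge_atTop 1] with n hn
      have hn0 : (0 : ℝ) < n := by exact_mod_cast hn
      have h1 := hup n hn
      rw [div_le_iff₀ hn0]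
      have h2 : (P / M + (A.L + 2) / n) * n = P / M * n + (A.L + 2) := by
        field_simp
      rw [h2]
      exact h1
  have hinv := hlim.inv₀ hc.ne'
  have h1 : (M : ℝ) / (A.L * M + b.toNat : ℕ) = (P / M)⁻¹ := by
    rw [inv_div, hP]
  rw [h1]
  refine hinv.congr fun n => ?_
  rw [inv_div]

theorem graph_nonReentrant (A : CA S) : A.graph.NonReentrant := fun i =>
  ⟨_, fr_loop A i, rfl, rfl, rfl, rfl, rfl, rfl⟩

theorem graph_stronglyConnected (A : CA S) : A.graph.StronglyConnected := by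
  intro i j
  refine (Relation.ReflTransGen.single ?_).trans (Relation.ReflTransGen.single (a := A.t0 A.s0) ?_)
  · exact ⟨_, fr_to A i, rfl, rfl⟩
  · exact ⟨_, fr_from A j, rfl, rfl⟩

theorem graph_balanced (A : CA S) : A.graph.Balanced := by
  intro e he
  change e ∈ A.arcs at he
  unfold CA.arcs at he
  simp only [List.mem_append, List.mem_map, List.mem_flatMap, List.mem_singleton] at he
  rcases he with (((⟨u, _, rfl⟩ | ⟨u, _, rfl⟩) | ⟨u, _, rfl⟩) | rfl) | ⟨q, _, r, _, rfl⟩
  · rfl
  · rfl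
  · rfl
  · rfl
  · unfold CA.rd
    split_ifs <;> rfl

end Pool.Agent.LinSched
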