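import Pool.Agent.Lib.MP_b03ab8_lc.CDefs

/-!
# Module C.Sched: the explicit schedule of the graph of a clocked automaton

Write `L = A.L ≥ 3`, `g l = A.g l`, `β l s n ∈ {0, 1, 2}` for the last summand of
`A.sched M b (some (l, s)) n`.

PERIODICITY (private lemma): `A.σ (k + M) = A.σ k`; for `k = 0` this is `ret`; step: `A.run`,
and so `A.F`, at time `k` depends only on the residues `k % g l`, `l < L`, and `g l ∣ M`.
Hence `A.σ n = A.s0` whenever `M ∣ n`, and `A.bon (A.F (A.σ n) n) = b` whenever `M ∣ n + 1`.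

PROOF of `sched_isSchedule`. Nonnegativity is clear. Constraints, arc by arc (`mem` as in
`CA.graph`); all are inequalities between natural numbers:
* loop at `some (l, s)`, from `n` to `n + 1` (`n = k`, the instance `k`): `β + 1 ≤ 3 ≤ L + β'`,
  and `n / M ≤ (n + 1) / M`. Loop at `none`: `(1 + b) + 1 ≤ 3 ≤ L`.
* `u → t0 s0`, shift `2`: the value at `t0 s0` is `≥ L (n + 2) + b ((n + 2) / M) + 1` (every
  state `s` is reachable in layer `0`: `run n 0 s = s`, so `β 0 s n ≥ 1`); for
  `u = some (l, s)`: `l + β + 1 ≤ L - 1 + 3 ≤ 2 L + 1`; for `u = none`: `L + 1 + b + 1 ≤ 2 L + 1`.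
* `t0 s0 → u`, shift `2`: `β + 1 ≤ 3 ≤ 2 L`.
* `none → t0 s0`, shift `1`: if not `M ∣ n + 1`: `L n + L + b (n / M) + 1 ≤ L (n + 1) +
  b ((n + 1) / M) + 1`. If `M ∣ n + 1`: `(n + 1) / M = n / M + 1` and `A.σ (n + 1) = s0`, so
  `β 0 s0 (n + 1) = 2`; `L n + L + b (n / M) + 1 + b + 1 ≤ L (n + 1) + b (n / M) + b + 2`.
* reading arcs: `m = g k + r - g`, `k ≥ 1`, so `m = g (k - 1) + r`, `m % g = r`. Put
  `s' = δ l s r = δ l s (m % g l)`. If `run m l s'' = s` then `run m (l + 1) s'' = s'`.
  - `l + 1 < L`: `β l s m ≤ β (l + 1) s' m` by the last remark.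
  - last layer, `bon s' = false`, to `t0 s'` at `m + 1`: `β 0 s' (m + 1) ≥ 1`, and if
    `β l s m = 2` then `s' = F (σ m) m`, `σ (m + 1) = s'` (no bonus), so `β 0 s' (m + 1) = 2`.
    `L m + (L - 1) + β + 1 ≤ L (m + 1) + β'`.
  - last layer, `bon s' = true`, to `none` at `m`: need
    `L - 1 + β l s m + 1 ≤ L + (if M ∣ m + 1 then 1 + b else 0)`. If `β ≥ 1` then
    `s = run m l s''` for some `s''`, `s' = F s'' m` is a bonus state, so `M ∣ m + 1` (`bonM`);
    if `β = 2` then moreover `s'' = σ m`, so `b = true` by the periodicity remark.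
-/

open Finset

namespace Pool.Agent.LinSched

variable {S : Type} [Fintype S]

section
variable {S : Type} (A : CA S) {M : ℕ} {b : Bool}

private theorem sched_run_mod {k k' : ℕ} (h : ∀ l < A.L, k % A.g l = k' % A.g l) (l : ℕ) (hl : l ≤ A.L) (s : S) :
    A.run k l s = A.run k' l s := by
  induction l with
  | zero => rfl
  | succ l ih =>
    change A.δ l (A.run k l s) (k % A.g l) = A.δ l (A.run k' l s) (k' % A.g l)
    rw [ih (by omega), h l (by omega)]

private theorem sched_F_add (h : A.Good M b) (k j : ℕ) (s : S) : A.F s (k + M * j) = A.F s k := by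
  refine sched_run_mod A (fun l hl => ?_) A.L le_rfl s
  obtain ⟨c, hc⟩ := h.gdvd l hl
  rw [hc, mul_assoc, Nat.add_mul_mod_self_left]

private theorem sched_sig_add (h : A.Good M b) (k : ℕ) : A.σ (k + M) = A.σ k := by
  induction k with
  | zero => rw [Nat.zero_add]; exact h.ret
  | succ k ih =>
    have e : k + 1 + M = k + M + 1 := by omega
    rw [e]
    change (if A.bon (A.F (A.σ (k + M)) (k + M)) then A.s0 else A.F (A.σ (k + M)) (k + M)) =
      (if A.bon (A.F (A.σ k) k) then A.s0 else A.F (A.σ k) k)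
    have e2 := sched_F_add A h k 1 (A.σ k)
    rw [mul_one] at e2
    rw [ih, e2]

private theorem sched_sig_mul (h : A.Good M b) (k j : ℕ) : A.σ (k + M * j) = A.σ k := by
  induction j with
  | zero => rw [mul_zero, add_zero]
  | succ j ih => rw [Nat.mul_succ, ← add_assoc, sched_sig_add A h, ih]

private theorem sched_sig_dvd (h : A.Good M b) {n : ℕ} (hn : M ∣ n) : A.σ n = A.s0 := by
  obtain ⟨j, rfl⟩ := hn
  have e := sched_sig_mul A h 0 j
  rw [Nat.zero_add] at e
  exact e

private theorem sched_bon_dvd (h : A.Good M b) {n : ℕ} (hn : M ∣ n + 1) : A.bon (A.F (A.σ n) n) = b := by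
  obtain ⟨j, hj⟩ := hn
  have hM := h.Mpos
  obtain ⟨i, rfl⟩ : ∃ i, j = i + 1 := by
    cases j with
    | zero => exact absurd hj (by omega)
    | succ i => exact ⟨i, rfl⟩
  have e : n = M - 1 + M * i := by
    rw [Nat.mul_succ] at hj
    omega
  rw [e, sched_sig_mul A h, sched_F_add A h]
  exact h.bonus

open Classical in
private noncomputable def sched_be (l : ℕ) (s : S) (n : ℕ) : ℕ :=
  if A.run n l (A.σ n) = s then 2 else if ∃ s', A.run n l s' = s then 1 else 0

private theorem sched_some (l : Fin A.L) (s : S) (n : ℕ) :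
    A.sched M b (some (l, s)) n = A.L * n + l + b.toNat * (n / M) + sched_be A l s n := rfl

private theorem sched_t0 (s : S) (n : ℕ) :
    A.sched M b (A.t0 s) n = A.L * n + 0 + b.toNat * (n / M) + sched_be A 0 s n := rfl

private theorem sched_be_le (l : ℕ) (s : S) (n : ℕ) : sched_be A l s n ≤ 2 := by
  unfold sched_be
  split_ifs <;> omega

private theorem sched_be_one {l : ℕ} {s : S} {n : ℕ} (h : ∃ s', A.run n l s' = s) : 1 ≤ sched_be A l s n := by
  unfold sched_be
  split_ifs <;> omega

private theorem sched_be_two {l : ℕ} {s : S} {n : ℕ} (h : A.run n l (A.σ n) = s) : sched_be A l s n = 2 := by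
  unfold sched_be
  rw [if_pos h]

private theorem sched_be_zero_ge (s : S) (n : ℕ) : 1 ≤ sched_be A 0 s n := sched_be_one A ⟨s, rfl⟩

private theorem sched_be_cases (l : ℕ) (s : S) (n : ℕ) :
    (A.run n l (A.σ n) = s ∧ sched_be A l s n = 2) ∨ ((∃ s', A.run n l s' = s) ∧ sched_be A l s n = 1) ∨
      sched_be A l s n = 0 := by
  by_cases h1 : A.run n l (A.σ n) = s
  · exact Or.inl ⟨h1, sched_be_two A h1⟩
  · by_cases h2 : ∃ s', A.run n l s' = s
    · refine Or.inr (Or.inl ⟨h2, ?_⟩)
      unfold sched_be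
      rw [if_neg h1, if_pos h2]
    · refine Or.inr (Or.inr ?_)
      unfold sched_be
      rw [if_neg h1, if_neg h2]

private theorem sched_B {m n : ℕ} (h : m ≤ n) (b : Bool) : b.toNat * (m / M) ≤ b.toNat * (n / M) :=
  Nat.mul_le_mul_left _ (Nat.div_le_div_right h)

private theorem sched_none_ge (n : ℕ) : A.L * n + A.L + b.toNat * (n / M) ≤ A.sched M b none n := by
  change _ ≤ A.L * n + A.L + b.toNat * (n / M) + (if M ∣ n + 1 then 1 + b.toNat else 0)
  omega

private theorem sched_none_le (n : ℕ) : A.sched M b none n ≤ A.L * n + A.L + b.toNat * (n / M) + 2 := by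
  change A.L * n + A.L + b.toNat * (n / M) + (if M ∣ n + 1 then 1 + b.toNat else 0) ≤ _
  have := b.toNat_le
  split_ifs <;> omega

private theorem sched_loop (h : A.Good M b) (u : A.Task) (m : ℕ) :
    A.sched M b u m + 1 ≤ A.sched M b u (m + 1) := by
  have h3 := h.L3
  have hB := sched_B (M := M) (show m ≤ m + 1 by omega) b
  have e : A.L * (m + 1) = A.L * m + A.L := Nat.mul_succ _ _
  rcases u with _ | ⟨l, s⟩
  · have a1 := sched_none_le A (M := M) (b := b) m
    have a2 := sched_none_ge A (M := M) (b := b) (m + 1)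
    rw [e] at a2
    omega
  · rw [sched_some, sched_some, e]
    have a1 := sched_be_le A l s m
    omega

private theorem sched_to0 (h : A.Good M b) (u : A.Task) (m : ℕ) :
    A.sched M b u m + 1 ≤ A.sched M b (A.t0 A.s0) (m + 2) := by
  have h3 := h.L3
  have hB := sched_B (M := M) (show m ≤ m + 2 by omega) b
  have e : A.L * (m + 2) = A.L * m + A.L + A.L := by ring
  have a0 := sched_be_zero_ge A A.s0 (m + 2)
  rw [sched_t0, e]
  rcases u with _ | ⟨l, s⟩
  · have a1 := sched_none_le A (M := M) (b := b) m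
    omega
  · rw [sched_some]
    have a1 := sched_be_le A l s m
    have hl := l.2
    omega

private theorem sched_of0 (h : A.Good M b) (u : A.Task) (m : ℕ) :
    A.sched M b (A.t0 A.s0) m + 1 ≤ A.sched M b u (m + 2) := by
  have h3 := h.L3
  have hB := sched_B (M := M) (show m ≤ m + 2 by omega) b
  have e : A.L * (m + 2) = A.L * m + A.L + A.L := by ring
  have a0 := sched_be_le A 0 A.s0 m
  rw [sched_t0]
  rcases u with _ | ⟨l, s⟩
  · have a1 := sched_none_ge A (M := M) (b := b) (m + 2)
    rw [e] at a1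
    omega
  · rw [sched_some, e]
    omega

private theorem sched_none0 (h : A.Good M b) (m : ℕ) :
    A.sched M b none m + 1 ≤ A.sched M b (A.t0 A.s0) (m + 1) := by
  have e : A.L * (m + 1) = A.L * m + A.L := Nat.mul_succ _ _
  have hB := sched_B (M := M) (show m ≤ m + 1 by omega) b
  rw [sched_t0, e]
  change A.L * m + A.L + b.toNat * (m / M) + (if M ∣ m + 1 then 1 + b.toNat else 0) + 1 ≤ _
  by_cases hd : M ∣ m + 1
  · rw [if_pos hd]
    have e2 : (m + 1) / M = m / M + 1 := by
      rw [Nat.succ_div, if_pos hd]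
    have e3 : sched_be A 0 A.s0 (m + 1) = 2 := by
      apply sched_be_two
      exact sched_sig_dvd A h hd
    rw [e2, e3, Nat.mul_succ]
    omega
  · rw [if_neg hd]
    have a0 := sched_be_zero_ge A A.s0 (m + 1)
    omega

private theorem sched_rd1 (l : ℕ) (s : S) (m : ℕ) :
    sched_be A l s m ≤ sched_be A (l + 1) (A.δ l s (m % A.g l)) m := by
  rcases sched_be_cases A l s m with ⟨h1, h2⟩ | ⟨⟨s', h1⟩, h2⟩ | h2
  · have h3 : sched_be A (l + 1) (A.δ l s (m % A.g l)) m = 2 := by
      apply sched_be_two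
      change A.δ l (A.run m l (A.σ m)) (m % A.g l) = _
      rw [h1]
    omega
  · have h3 : 1 ≤ sched_be A (l + 1) (A.δ l s (m % A.g l)) m := by
      apply sched_be_one
      refine ⟨s', ?_⟩
      change A.δ l (A.run m l s') (m % A.g l) = _
      rw [h1]
    omega
  · omega

private theorem sched_rd2 {l : ℕ} (hl : l + 1 = A.L) (s : S) (m : ℕ)
    (hb : A.bon (A.δ l s (m % A.g l)) = false) :
    sched_be A l s m ≤ sched_be A 0 (A.δ l s (m % A.g l)) (m + 1) := by
  rcases sched_be_cases A l s m with ⟨h1, h2⟩ | ⟨-, h2⟩ | h2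
  · have h3 : sched_be A 0 (A.δ l s (m % A.g l)) (m + 1) = 2 := by
      apply sched_be_two
      change A.σ (m + 1) = _
      have h4 : A.F (A.σ m) m = A.δ l s (m % A.g l) := by
        unfold CA.F
        rw [← hl]
        change A.δ l (A.run m l (A.σ m)) (m % A.g l) = _
        rw [h1]
      change (if A.bon (A.F (A.σ m) m) then A.s0 else A.F (A.σ m) m) = _
      rw [h4, hb]
      rfl
    omega
  · have h3 := sched_be_zero_ge A (A.δ l s (m % A.g l)) (m + 1)
    omega
  · omega

private theorem sched_rd3 (h : A.Good M b) {l : ℕ} (hl : l + 1 = A.L) (s : S) (m : ℕ)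
    (hb : A.bon (A.δ l s (m % A.g l)) = true) :
    sched_be A l s m ≤ (if M ∣ m + 1 then 1 + b.toNat else 0) := by
  rcases sched_be_cases A l s m with ⟨h1, h2⟩ | ⟨⟨s', h1⟩, h2⟩ | h2
  · have h4 : A.F (A.σ m) m = A.δ l s (m % A.g l) := by
      unfold CA.F
      rw [← hl]
      change A.δ l (A.run m l (A.σ m)) (m % A.g l) = _
      rw [h1]
    have h5 : M ∣ m + 1 := h.bonM (A.σ m) m (by rw [h4, hb])
    have h6 := sched_bon_dvd A h h5
    rw [h4, hb] at h6
    rw [if_pos h5, h2, ← h6]
    decide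
  · have h4 : A.F s' m = A.δ l s (m % A.g l) := by
      unfold CA.F
      rw [← hl]
      change A.δ l (A.run m l s') (m % A.g l) = _
      rw [h1]
    have h5 : M ∣ m + 1 := h.bonM s' m (by rw [h4, hb])
    rw [if_pos h5]
    omega
  · omega

end

theorem sched_isSchedule (A : CA S) (M : ℕ) (b : Bool) (h : A.Good M b) :
    A.graph.IsSchedule (fun u n => (A.sched M b u n : ℝ)) := by
  refine ⟨fun i k _ => Nat.cast_nonneg _, ?_⟩
  intro e he k hk m n hm hn h1 h2
  have hp : A.graph.p e.src = 1 := rfl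
  rw [hp]
  suffices key : A.sched M b e.src m + 1 ≤ A.sched M b e.dst n by
    change ((A.sched M b e.src m : ℕ) : ℝ) + ((1 : ℕ) : ℝ) ≤ ((A.sched M b e.dst n : ℕ) : ℝ)
    exact_mod_cast key
  change e ∈ A.arcs at he
  unfold CA.arcs at he
  simp only [List.mem_append, List.mem_map, List.mem_flatMap, List.mem_singleton] at he
  rcases he with (((⟨u, _, rfl⟩ | ⟨u, _, rfl⟩) | ⟨u, _, rfl⟩) | rfl) | ⟨q, _, r, hr, rfl⟩
  · obtain rfl : n = m + 1 := by
      push_cast at h1 h2
      omega
    exact sched_loop A h u m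
  · obtain rfl : n = m + 2 := by
      push_cast at h1 h2
      omega
    exact sched_to0 A h u m
  · obtain rfl : n = m + 2 := by
      push_cast at h1 h2
      omega
    exact sched_of0 A h u m
  · obtain rfl : n = m + 1 := by
      push_cast at h1 h2
      omega
    exact sched_none0 A h m
  · rw [List.mem_range] at hr
    obtain ⟨l, s⟩ := q
    change r < A.g l at hr
    have hmr : ∀ z : ℤ, (m : ℤ) = (A.g l : ℤ) * k + ((r : ℤ) - A.g l) + z → z = 0 → m % A.g l = r := by
      intro z hz hz0
      rw [hz0, add_zero] at hz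
      have e1 : (m : ℤ) = (r : ℤ) + (A.g l : ℤ) * (k - 1) := by
        rw [hz]
        ring
      have e2 : ((m % A.g l : ℕ) : ℤ) = (r : ℤ) := by
        rw [Int.natCast_mod, e1, Int.add_mul_emod_self_left]
        exact Int.emod_eq_of_lt (Int.natCast_nonneg _) (by exact_mod_cast hr)
      exact_mod_cast e2
    unfold CA.rd at h1 h2 ⊢
    change (m : ℤ) = _ at h1
    change A.sched M b (if h : (l : ℕ) + 1 < A.L then _ else _ : Arc A.Task).src m + 1 ≤ _
    by_cases hl : (l : ℕ) + 1 < A.L
    · rw [dif_pos hl] at h1 h2 ⊢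
      change (m : ℤ) = (A.g l : ℤ) * k + ((r : ℤ) - A.g l) at h1
      change (n : ℤ) = (A.g l : ℤ) * k + ((r : ℤ) - A.g l) at h2
      have hm' := hmr 0 (by rw [add_zero]; exact h1) rfl
      obtain rfl : n = m := by omega
      change A.sched M b (some (l, s)) n + 1 ≤ A.sched M b (some (⟨l + 1, hl⟩, A.δ l s r)) n
      rw [sched_some, sched_some]
      have a1 := sched_rd1 A l s n
      rw [hm'] at a1
      change A.L * n + l + b.toNat * (n / M) + sched_be A l s n + 1 ≤
        A.L * n + ((l : ℕ) + 1) + b.toNat * (n / M) + sched_be A (l + 1) (A.δ l s r) n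
      omega
    · have hl1 : (l : ℕ) + 1 = A.L := by have := l.2; omega
      rw [dif_neg hl] at h1 h2 ⊢
      by_cases hb : A.bon (A.δ l s r) = true
      · rw [if_pos hb] at h1 h2 ⊢
        change (m : ℤ) = (A.g l : ℤ) * k + ((r : ℤ) - A.g l) at h1
        change (n : ℤ) = (A.g l : ℤ) * k + ((r : ℤ) - A.g l) at h2
        have hm' := hmr 0 (by rw [add_zero]; exact h1) rfl
        obtain rfl : n = m := by omega
        change A.sched M b (some (l, s)) n + 1 ≤ A.sched M b none n
        rw [sched_some]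
        have a1 := sched_rd3 A h hl1 s n (by rw [hm']; exact hb)
        change A.L * n + l + b.toNat * (n / M) + sched_be A l s n + 1 ≤
          A.L * n + A.L + b.toNat * (n / M) + (if M ∣ n + 1 then 1 + b.toNat else 0)
        omega
      · rw [if_neg hb] at h1 h2 ⊢
        change (m : ℤ) = (A.g l : ℤ) * k + ((r : ℤ) - A.g l) at h1
        change (n : ℤ) = (A.g l : ℤ) * k + ((r : ℤ) - A.g l + 1) at h2
        have hm' := hmr 0 (by rw [add_zero]; exact h1) rfl
        obtain rfl : n = m + 1 := by omega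
        change A.sched M b (some (l, s)) m + 1 ≤ A.sched M b (A.t0 (A.δ l s r)) (m + 1)
        rw [sched_some, sched_t0]
        have a1 := sched_rd2 A hl1 s m (by rw [hm']; exact Bool.eq_false_iff.mpr hb)
        rw [hm'] at a1
        have hB := sched_B (M := M) (show m ≤ m + 1 by omega) b
        have e : A.L * (m + 1) = A.L * m + A.L := Nat.mul_succ _ _
        rw [e]
        omega

end Pool.Agent.LinSched
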