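import Pool.Agent.Lib.MP_b03ab8_lc.CDefs

/-!
# Module C.Size: the binary size of the graph of a clocked automaton

PROOF. `card Task = 1 + L card S ≤ 1 + P ^ 2 ≤ 2 P ^ 2`, `size x ≤ x`. The number of arcs is
`3 card Task + 1 + ∑_{(l, s)} g l ≤ 6 P ^ 2 + 1 + P ^ 3 ≤ 5 P ^ 3` (`P ≥ 2`: `6 P ^ 2 ≤ 3 P ^ 3`,
`1 ≤ P ^ 3`). For every arc, `α = α' ≤ P`, `|h|, |h'| ≤ P + 1` (`|r - g| ≤ g ≤ P`), so the
summand of the arc is at most `2 (2 P ^ 2) + 2 P + 2 (1 + P + 1) ≤ 8 P ^ 2` (`4 P + 4 ≤ 4 P ^ 2`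
holds for `P ≥ 2`: `4 P ^ 2 - 4 P - 4 ≥ 4`). Tasks: `2 card Task ≤ 4 P ^ 2 ≤ P ^ 5`.
Total `≤ 40 P ^ 5 + P ^ 5 ≤ 100 P ^ 5`.
(Useful: if every element of a list of naturals is `≤ c` then its sum is `≤ length * c`,
`List.sum_le_card_nsmul`; the length of a `flatMap` is the sum of the lengths,
`List.length_flatMap`; `Finset.length_toList`.)
-/

open Finset

namespace Pool.Agent.LinSched

variable {S : Type} [Fintype S]

private theorem size_le_self (x : ℕ) : x.size ≤ x := Nat.size_le.mpr Nat.lt_two_pow_self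

private theorem size_arc (A : CA S) (P : ℕ) (hP : 2 ≤ P) (hg : ∀ l, l < A.L → A.g l ≤ P) {e : Arc A.Task}
    (he : e ∈ A.arcs) : e.α ≤ P ∧ e.α' ≤ P ∧ e.h.natAbs ≤ P ∧ e.h'.natAbs ≤ P := by
  unfold CA.arcs at he
  simp only [List.mem_append, List.mem_map, List.mem_flatMap, List.mem_singleton] at he
  rcases he with (((⟨u, _, rfl⟩ | ⟨u, _, rfl⟩) | ⟨u, _, rfl⟩) | rfl) | ⟨q, _, r, hr, rfl⟩
  · exact ⟨by change 1 ≤ P; omega, by change 1 ≤ P; omega, by change 1 ≤ P; omega, Nat.zero_le _⟩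
  · exact ⟨by change 1 ≤ P; omega, by change 1 ≤ P; omega, by change 2 ≤ P; omega, Nat.zero_le _⟩
  · exact ⟨by change 1 ≤ P; omega, by change 1 ≤ P; omega, by change 2 ≤ P; omega, Nat.zero_le _⟩
  · exact ⟨by change 1 ≤ P; omega, by change 1 ≤ P; omega, by change 1 ≤ P; omega, Nat.zero_le _⟩
  · rw [List.mem_range] at hr
    have hgl := hg q.1 q.1.2
    unfold CA.rd
    split_ifs
    · exact ⟨hgl, hgl, by change ((r : ℤ) - A.g q.1).natAbs ≤ P; omega, by change ((r : ℤ) - A.g q.1).natAbs ≤ P; omega⟩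
    · exact ⟨hgl, hgl, by change ((r : ℤ) - A.g q.1).natAbs ≤ P; omega, by change ((r : ℤ) - A.g q.1).natAbs ≤ P; omega⟩
    · exact ⟨hgl, hgl, by change ((r : ℤ) - A.g q.1 + 1).natAbs ≤ P; omega, by change ((r : ℤ) - A.g q.1).natAbs ≤ P; omega⟩

private theorem size_sum_le (l : List ℕ) (c : ℕ) (h : ∀ x ∈ l, x ≤ c) : l.sum ≤ l.length * c := by
  have h1 := List.sum_le_card_nsmul l c h
  rwa [smul_eq_mul] at h1

theorem graph_size (A : CA S) (P : ℕ) (hP : 2 ≤ P) (hL : A.L ≤ P) (hS : Fintype.card S ≤ P)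
    (hg : ∀ l, l < A.L → A.g l ≤ P) : A.graph.size ≤ 100 * P ^ 5 := by
  have hLS : A.L * Fintype.card S ≤ P ^ 2 := by
    rw [pow_two]
    exact Nat.mul_le_mul hL hS
  have hcard : Fintype.card A.Task = A.L * Fintype.card S + 1 := by
    rw [Fintype.card_option, Fintype.card_prod, Fintype.card_fin]
  have hc : Fintype.card A.Task ≤ P ^ 2 + 1 := by omega
  have hlen : A.arcs.length ≤ 3 * (P ^ 2 + 1) + 1 + P ^ 2 * P := by
    unfold CA.arcs
    simp only [List.length_append, List.length_map, List.length_flatMap, List.length_range, Finset.length_toList,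
      List.length_singleton, Finset.card_univ]
    have h1 := size_sum_le ((univ : Finset (Fin A.L × S)).toList.map fun q => A.g q.1) P (by
      intro x hx
      rw [List.mem_map] at hx
      obtain ⟨q, _, rfl⟩ := hx
      exact hg q.1 q.1.2)
    rw [List.length_map, Finset.length_toList, Finset.card_univ, Fintype.card_prod, Fintype.card_fin] at h1
    have h2 : A.L * Fintype.card S * P ≤ P ^ 2 * P := Nat.mul_le_mul_right _ hLS
    omega
  have htask : ∑ i, (1 + (A.graph.p i).size) ≤ 2 * (P ^ 2 + 1) := by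
    have h1 : ∀ i ∈ (univ : Finset A.Task), 1 + (A.graph.p i).size ≤ 2 := by
      intro i _
      have h2 : (A.graph.p i).size ≤ 1 := size_le_self 1
      omega
    have h3 := Finset.sum_le_card_nsmul _ _ _ h1
    rw [Finset.card_univ, smul_eq_mul] at h3
    omega
  have harc : ∀ x ∈ A.arcs.map (fun e => 2 * (Fintype.card A.Task).size + e.α.size + e.α'.size
      + (1 + e.h.natAbs.size) + (1 + e.h'.natAbs.size)), x ≤ 2 * (P ^ 2 + 1) + 4 * P + 2 := by
    intro x hx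
    rw [List.mem_map] at hx
    obtain ⟨e, he, rfl⟩ := hx
    obtain ⟨h1, h2, h3, h4⟩ := size_arc A P hP hg he
    have g0 := size_le_self (Fintype.card A.Task)
    have g1 := size_le_self e.α
    have g2 := size_le_self e.α'
    have g3 := size_le_self e.h.natAbs
    have g4 := size_le_self e.h'.natAbs
    omega
  have hsum := size_sum_le _ _ harc
  rw [List.length_map] at hsum
  have hmul : A.arcs.length * (2 * (P ^ 2 + 1) + 4 * P + 2) ≤
      (3 * (P ^ 2 + 1) + 1 + P ^ 2 * P) * (2 * (P ^ 2 + 1) + 4 * P + 2) := Nat.mul_le_mul_right _ hlen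
  have hfin : 2 * (P ^ 2 + 1) + (3 * (P ^ 2 + 1) + 1 + P ^ 2 * P) * (2 * (P ^ 2 + 1) + 4 * P + 2) ≤ 100 * P ^ 5 := by
    obtain ⟨k, rfl⟩ : ∃ k, P = k + 2 := ⟨P - 2, by omega⟩
    ring_nf
    have h1 : 0 ≤ k := Nat.zero_le _
    nlinarith [Nat.zero_le (k ^ 2), Nat.zero_le (k ^ 3), Nat.zero_le (k ^ 4), Nat.zero_le (k ^ 5)]
  change (∑ i, (1 + (A.graph.p i).size)) + (A.arcs.map (fun e => 2 * (Fintype.card A.Task).size + e.α.size + e.α'.size
      + (1 + e.h.natAbs.size) + (1 + e.h'.natAbs.size))).sum ≤ 100 * P ^ 5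
  omega

end Pool.Agent.LinSched
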